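import Pool.Agent.H30.LTF.Defs
import Pool.Agent.H3.LU.NotQ1Or

/-!
From the objects of `Pool.H3.L2` to the definitions of `LTF`.
-/

set_option autoImplicit false

open scoped BigOperators Topology Manifold ContDiff
open MeasureTheory Filter Pool.H3.L2

noncomputable section

namespace LTF

theorem isRes_of {Γ : Type} [Group Γ] {C : BCx (GR Γ)} (h : C.IsRes) : IsRes C.deg C.D := by
  obtain ⟨e, h1, h2, h3, h4⟩ := h
  refine ⟨C.deg_D, fun s u => congrFun (congrFun C.D_D s) u, e, h1, h2, h3, fun v hv hv' => ?_⟩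
  obtain ⟨w, hw⟩ := h4 v (funext hv) hv'
  exact ⟨w, fun t => congrFun hw t⟩

theorem isSpectral_of {Γ : Type} [Group Γ] {C : BCx (GR Γ)} {k : ℕ} {μ : Measure ℝ}
    (h : C.IsSpectral k μ) : IsSpectral C.deg C.D k μ :=
  ⟨h.finite, h.bounded, h.moment⟩

theorem isResidual_of {Γ : Type} [Group Γ] (c : ResChain Γ) : IsResidual c.N where
  normal := c.normal
  finite := c.fin
  first g := by rw [c.zero]; trivial
  anti i := c.anti (Nat.lt_succ_self i)
  inter g hg := by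
    have h : g ∈ ⨅ i, c.N i := (Subgroup.mem_iInf).2 hg
    rw [c.inf] at h
    exact h

theorem isAspherical_of {n : ℕ} (M : AsphericalMfd n) : IsAspherical M.Γ M.E M.V n where
  finite := M.findim
  dim := M.finrank_V
  mfd := M.mfd
  hausdorff := M.t2
  countable := M.sc
  contractible := M.contr
  smooth := M.smooth
  free := M.free
  proper K L hK hL := by
    refine (M.proper K L hK hL).subset ?_
    rintro g ⟨x, hx, hy⟩
    exact ⟨g • x, ⟨x, hx, rfl⟩, hy⟩
  cocompact := M.cocompact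

theorem card_eq_of_surj {T X Y : Type*} (f : T → X) (g : T → Y) (hf : Function.Surjective f)
    (hg : Function.Surjective g) (h : ∀ a b, f a = f b ↔ g a = g b) : Nat.card X = Nat.card Y := by
  refine Nat.card_congr (Equiv.ofBijective (fun x => g (Function.surjInv hf x)) ⟨?_, ?_⟩)
  · intro x y hxy
    have := (h _ _).2 hxy
    rwa [Function.surjInv_eq hf, Function.surjInv_eq hf] at this
  · intro y
    obtain ⟨t, rfl⟩ := hg y
    exact ⟨f t, (h _ _).1 (Function.surjInv_eq hf _)⟩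

section

variable {Γ Q : Type} [Group Γ] [Group Q] [Fintype Q] [DecidableEq Q]

/-- Coordinates of chains with coefficients in the group ring of a finite group. -/
def crd {S : Type} : (S → MonoidAlgebra ℤ Q) ≃ (S × Q → ℤ) where
  toFun v p := (v p.1).coeff p.2
  invFun u s := MonoidAlgebra.ofCoeff (Finsupp.equivFunOnFinite.symm fun q => u (s, q))
  left_inv v := by
    funext s
    ext q
    simp
  right_inv u := by
    funext p
    simp

theorem crd_sub {S : Type} (v w : S → MonoidAlgebra ℤ Q) :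
    crd (fun s => v s - w s) = crd v - crd w := by
  funext p
  simp [crd]

theorem crd_mul {S : Type} (m : ℕ) (v : S → MonoidAlgebra ℤ Q) :
    crd (fun s => (m : MonoidAlgebra ℤ Q) * v s) = (m : ℤ) • crd v := by
  funext p
  change ((m : MonoidAlgebra ℤ Q) * v p.1).coeff p.2 = (m : ℤ) * (v p.1).coeff p.2
  rw [← nsmul_eq_mul, MonoidAlgebra.coeff_smul, Finsupp.smul_apply, nsmul_eq_mul]

theorem crd_bd (C : BCx (GR Γ)) (φ : Γ →* Q) (v : C.S → MonoidAlgebra ℤ Q) :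
    crd (bd (fun a => (MonoidAlgebra.mapDomain φ a : MonoidAlgebra ℤ Q)) C.D v) =
      Matrix.vecMul (crd v) (C.quot φ).D := by
  funext p
  obtain ⟨t, y⟩ := p
  change (∑ s, v s * MonoidAlgebra.mapDomain φ (C.D s t) : MonoidAlgebra ℤ Q).coeff y =
    ∑ p : C.S × Q, (v p.1).coeff p.2 * (MonoidAlgebra.mapDomain φ (C.D p.1 t)).coeff (p.2⁻¹ * y)
  rw [MonoidAlgebra.coeff_sum, Finsupp.finsetSum_apply, Fintype.sum_prod_type]
  refine Finset.sum_congr rfl fun s _ => ?_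
  rw [coeff_mul_fintype]

theorem mem_Zk (C : BCx (GR Γ)) (φ : Γ →* Q) (k : ℕ) (v : C.S → MonoidAlgebra ℤ Q) :
    crd v ∈ (C.quot φ).Zk k ↔
      IsCycle (fun a => (MonoidAlgebra.mapDomain φ a : MonoidAlgebra ℤ Q)) C.deg C.D k v := by
  constructor
  · rintro ⟨h1, h2⟩
    refine ⟨fun s hs => ?_, fun t => ?_⟩
    · ext q
      exact h1 (s, q) hs
    · have h3 := (crd_bd C φ v).trans h2
      ext q
      exact congrFun h3 (t, q)
  · rintro ⟨h1, h2⟩
    refine ⟨fun s hs => ?_, ?_⟩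
    · change (v s.1).coeff s.2 = 0
      rw [h1 s.1 hs]
      rfl
    · refine (crd_bd C φ v).symm.trans ?_
      funext p
      change (bd _ C.D v p.1).coeff p.2 = 0
      rw [h2 p.1]
      rfl

theorem mem_Bk (C : BCx (GR Γ)) (φ : Γ →* Q) (k : ℕ) (v : C.S → MonoidAlgebra ℤ Q) :
    crd v ∈ (C.quot φ).Bk k ↔
      IsBdry (fun a => (MonoidAlgebra.mapDomain φ a : MonoidAlgebra ℤ Q)) C.deg C.D k v := by
  constructor
  · rintro ⟨w, h1, h2⟩
    obtain ⟨w, rfl⟩ := crd.surjective w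
    refine ⟨w, fun s hs => ?_, fun t => ?_⟩
    · ext q
      exact h1 (s, q) hs
    · exact congrFun (crd.injective ((crd_bd C φ w).trans h2)) t
  · rintro ⟨w, h1, h2⟩
    refine ⟨crd w, fun s hs => ?_, ?_⟩
    · change (w s.1).coeff s.2 = 0
      rw [h1 s.1 hs]
      rfl
    · exact (crd_bd C φ w).symm.trans (congrArg crd (funext h2))

end

/-- The torsion of `Z / B` by classes. -/
theorem card_torsion {A T : Type} [AddCommGroup A] (Z B : Submodule ℤ A)
    (e : T ≃ A) (Z' B' : T → Prop) (sub : T → T → T) (mul : ℕ → T → T)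
    (hZ : ∀ t, e t ∈ Z ↔ Z' t) (hB' : ∀ t, e t ∈ B ↔ B' t)
    (hs : ∀ a b, e (sub a b) = e a - e b) (hm : ∀ m a, e (mul m a) = (m : ℤ) • e a) :
    Nat.card (Submodule.torsion ℤ (↥Z ⧸ B.submoduleOf Z)) =
      Set.ncard {c : Set T | ∃ (z : T) (m : ℕ), Z' z ∧ 0 < m ∧ B' (mul m z) ∧
        c = {y | B' (sub y z)}} := by
  let P := {z : T // Z' z ∧ ∃ m : ℕ, 0 < m ∧ B' (mul m z)}
  have key : ∀ z : T, (hz : Z' z) →
      ((∃ m : ℕ, 0 < m ∧ B' (mul m z)) ↔
        Submodule.Quotient.mk ⟨e z, (hZ z).2 hz⟩ ∈ Submodule.torsion ℤ (↥Z ⧸ B.submoduleOf Z)) := by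
    intro z hz
    rw [Submodule.mem_torsion_iff]
    constructor
    · rintro ⟨m, hm0, hmz⟩
      refine ⟨⟨(m : ℤ), mem_nonZeroDivisors_of_ne_zero (by exact_mod_cast hm0.ne')⟩, ?_⟩
      refine (Submodule.Quotient.mk_smul _ (m : ℤ) _).symm.trans ?_
      rw [Submodule.Quotient.mk_eq_zero]
      change (m : ℤ) • e z ∈ B
      rw [← hm]
      exact (hB' _).2 hmz
    · rintro ⟨⟨a, ha⟩, h⟩
      have ha0 : a ≠ 0 := nonZeroDivisors.ne_zero ha
      have h := (Submodule.Quotient.mk_smul _ a _).trans h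
      rw [Submodule.Quotient.mk_eq_zero] at h
      change a • e z ∈ B at h
      refine ⟨a.natAbs, Int.natAbs_pos.2 ha0, (hB' _).1 ?_⟩
      rw [hm]
      rcases Int.natAbs_eq a with h' | h'
      · rw [← h']
        exact h
      · rw [h', neg_smul] at h
        exact (Submodule.neg_mem_iff B).1 h
  rw [← Nat.card_coe_set_eq]
  refine card_eq_of_surj (T := P)
    (fun z => ⟨Submodule.Quotient.mk ⟨e z.1, (hZ z.1).2 z.2.1⟩, (key z.1 z.2.1).1 z.2.2⟩)
    (fun z => ⟨{y | B' (sub y z.1)}, z.1, z.2.2.choose, z.2.1, z.2.2.choose_spec.1,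
      z.2.2.choose_spec.2, rfl⟩) ?_ ?_ ?_
  · rintro ⟨q, hq⟩
    obtain ⟨⟨a, ha⟩, rfl⟩ := Submodule.Quotient.mk_surjective _ q
    obtain ⟨z, rfl⟩ := e.surjective a
    have hz : Z' z := (hZ z).1 ha
    exact ⟨⟨z, hz, (key z hz).2 hq⟩, rfl⟩
  · rintro ⟨c, z, m, h1, h2, h3, rfl⟩
    exact ⟨⟨z, h1, m, h2, h3⟩, rfl⟩
  · rintro ⟨a, ha⟩ ⟨b, hb⟩
    rw [Subtype.mk.injEq, Subtype.mk.injEq, Submodule.Quotient.eq]
    change e a - e b ∈ B ↔ _
    constructor
    · intro h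
      ext y
      change B' (sub y a) ↔ B' (sub y b)
      rw [← hB', ← hB', hs, hs]
      constructor
      · intro h'
        have := B.add_mem h' h
        simpa using this
      · intro h'
        have := B.sub_mem h' h
        simpa using this
    · intro h
      have h0 : a ∈ {y | B' (sub y a)} := by
        change B' (sub a a)
        rw [← hB', hs, sub_self]
        exact B.zero_mem
      rw [h] at h0
      change B' (sub a b) at h0
      rwa [← hB', hs] at h0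

theorem torsQ_eq {Γ Q : Type} [Group Γ] [Group Q] [Fintype Q] [DecidableEq Q] (C : BCx (GR Γ))
    (φ : Γ →* Q) (k : ℕ) : torsQ φ C.deg C.D k = (C.quot φ).torsOrd k := by
  unfold torsQ torsH BCx.torsOrd
  symm
  exact card_torsion ((C.quot φ).Zk k) ((C.quot φ).Bk k) crd
    (IsCycle (fun a => (MonoidAlgebra.mapDomain φ a : MonoidAlgebra ℤ Q)) C.deg C.D k)
    (IsBdry (fun a => (MonoidAlgebra.mapDomain φ a : MonoidAlgebra ℤ Q)) C.deg C.D k)
    (fun y z s => y s - z s) (fun m z s => (m : MonoidAlgebra ℤ Q) * z s)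
    (mem_Zk C φ k) (mem_Bk C φ k) crd_sub crd_mul

theorem torsOrd_eq {Γ : Type} [Group Γ] (C : BCx (GR Γ)) (N : Subgroup Γ) [N.Normal]
    [N.FiniteIndex] (k : ℕ) : torsOrd N C.deg C.D k = (C.cover N).torsOrd k :=
  letI : Fintype (Γ ⧸ N) := Fintype.ofFinite _
  letI : DecidableEq (Γ ⧸ N) := Classical.decEq _
  torsQ_eq C (QuotientGroup.mk' N) k

theorem coeff_mapDomain_eq_aug {Γ Q : Type} [Group Γ] [Group Q] [Subsingleton Q] (φ : Γ →* Q)
    (a : MonoidAlgebra ℤ Γ) (q : Q) :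
    (MonoidAlgebra.mapDomain φ a : MonoidAlgebra ℤ Q).coeff q = aug a := by
  rw [MonoidAlgebra.coeff_mapDomain, Finsupp.mapDomain, Finsupp.sum_apply]
  unfold aug
  refine Finsupp.sum_congr fun g _ => ?_
  rw [Subsingleton.elim (φ g) q, Finsupp.single_eq_same]

theorem topHom_quot {Γ Q : Type} [Group Γ] [Group Q] [Fintype Q] [DecidableEq Q] [Subsingleton Q]
    (C : BCx (GR Γ)) (hC : C.IsRes) (φ : Γ →* Q) (n : ℕ) (h : (C.quot φ).betti ℝ n ≠ 0) :
    TopHom Γ n := by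
  have hnt : Nontrivial (((C.quot φ).map (Int.castRingHom ℝ)).Hk n) :=
    Module.nontrivial_of_finrank_pos (Nat.pos_of_ne_zero h)
  obtain ⟨q, hq⟩ := exists_ne (0 : ((C.quot φ).map (Int.castRingHom ℝ)).Hk n)
  obtain ⟨⟨z, hz1, hz2⟩, rfl⟩ := Submodule.Quotient.mk_surjective _ q
  have hz3 : z ∉ ((C.quot φ).map (Int.castRingHom ℝ)).Bk n := fun h0 =>
    hq ((Submodule.Quotient.mk_eq_zero _).2 h0)
  have hsum : ∀ (u : C.S × Q → ℝ) (t : C.S) (y : Q),
      ∑ s, u (s, 1) * (aug (C.D s t) : ℝ) =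
        ∑ p : C.S × Q, u p * (((C.quot φ).D p (t, y) : ℤ) : ℝ) := by
    intro u t y
    rw [Fintype.sum_prod_type]
    refine Finset.sum_congr rfl fun s _ => ?_
    rw [Fintype.sum_eq_single (1 : Q) (fun x hx => absurd (Subsingleton.elim x 1) hx)]
    congr 2
    exact (coeff_mapDomain_eq_aug φ (C.D s t) _).symm
  refine ⟨C.S, C.fin, C.deg, C.D, fun s => z (s, 1), isRes_of hC, ⟨fun s hs => hz1 (s, 1) hs,
    fun t => ?_⟩, ?_⟩
  · exact (hsum z t 1).trans (congrFun hz2 (t, 1))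
  · rintro ⟨w, hw1, hw2⟩
    refine hz3 ⟨fun p => w p.1, fun p hp => hw1 p.1 hp, ?_⟩
    funext p
    obtain ⟨t, y⟩ := p
    refine (hsum (fun p => w p.1) t y).symm.trans ((hw2 t).trans ?_)
    rw [Subsingleton.elim y 1]

theorem topHom_of {Γ : Type} [Group Γ] {C : BCx (GR Γ)} (hC : C.IsRes) {n : ℕ}
    (h : (C.cover ⊤).betti ℝ n ≠ 0) : TopHom Γ n :=
  letI : Fintype (Γ ⧸ (⊤ : Subgroup Γ)) := Fintype.ofFinite _
  letI : DecidableEq (Γ ⧸ (⊤ : Subgroup Γ)) := Classical.decEq _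
  haveI : Subsingleton (Γ ⧸ (⊤ : Subgroup Γ)) := QuotientGroup.subsingleton_quotient_top
  topHom_quot C hC (QuotientGroup.mk' ⊤) n h

theorem main : ∃ (k : ℕ) (Γ E V : Type) (_ : Group Γ) (_ : TopologicalSpace E)
    (_ : MulAction Γ E) (_ : NormedAddCommGroup V) (_ : NormedSpace ℝ V) (_ : ChartedSpace V E)
    (S : Type) (_ : Fintype S) (_ : DecidableEq S) (deg : S → ℕ)
    (D : Matrix S S (MonoidAlgebra ℤ Γ)) (μ : ℕ → Measure ℝ) (N : ℕ → Subgroup Γ)
    (_ : ∀ i, (N i).Normal),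
    IsAspherical Γ E V (2 * k + 1) ∧ TopHom Γ (2 * k + 1) ∧ IsRes deg D ∧ IsResidual N ∧
      (∀ j, IsSpectral deg D j (μ j)) ∧ (∀ j, μ j {0} = 0) ∧
      (∀ j, IntegrableOn Real.log (Set.Ioi 0) (μ j)) ∧
      ¬ Tendsto (fun i => Real.log (torsOrd (N i) deg D k) / (N i).index) atTop
        (𝓝 ((-1) ^ k * rho deg μ)) := by
  obtain ⟨k, M, ⟨C0, hC0, hb⟩, C, μ, c, hC, h1, h2, h3, h4⟩ := Pool.LU.exists_counterexample
  refine ⟨k, M.Γ, M.E, M.V, M.grp, M.top, M.act, M.normed, M.space, M.charted, C.S, C.fin, C.dec,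
    C.deg, C.D, μ, c.N, c.normal, isAspherical_of M, topHom_of hC0 hb, isRes_of hC,
    isResidual_of c, fun j => isSpectral_of (h1 j), h2, h3, fun h => h4 ?_⟩
  have : ∀ i, torsOrd (c.N i) C.deg C.D k = (C.cover (c.N i)).torsOrd k := fun i =>
    torsOrd_eq C (c.N i) k
  simp only [this] at h
  exact h

end LTF
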