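import Mathlib

/-!
Definitions for the statement: closed aspherical manifolds, resolutions over group rings, homology
of finite covers, spectral measures of Laplacians, `L²`-torsion, residual chains.
-/

open scoped Manifold ContDiff
open MeasureTheory

noncomputable section

namespace LTF

/-- `E` is a contractible smooth manifold of dimension `n` (modelled on `V`) with a free, proper and
cocompact action of `Γ` by smooth maps: `E / Γ` is a closed aspherical smooth manifold of dimension
`n` with universal cover `E` and fundamental group `Γ`. -/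
structure IsAspherical (Γ E V : Type) [Group Γ] [TopologicalSpace E] [MulAction Γ E]
    [NormedAddCommGroup V] [NormedSpace ℝ V] [ChartedSpace V E] (n : ℕ) : Prop where
  finite : FiniteDimensional ℝ V
  dim : Module.finrank ℝ V = n
  mfd : IsManifold 𝓘(ℝ, V) ∞ E
  hausdorff : T2Space E
  countable : SecondCountableTopology E
  contractible : ContractibleSpace E
  smooth : ∀ g : Γ, ContMDiff 𝓘(ℝ, V) 𝓘(ℝ, V) ∞ fun x : E => g • x
  free : ∀ (g : Γ) (x : E), g • x = x → g = 1
  proper : ∀ K L : Set E, IsCompact K → IsCompact L → {g : Γ | ∃ x ∈ K, g • x ∈ L}.Finite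
  cocompact : ∃ K : Set E, IsCompact K ∧ ∀ x : E, ∃ g : Γ, g • x ∈ K

section

variable {S A B : Type} [Fintype S] [Ring A] [Ring B]

/-- The boundary of the chain `v`, for the complex with basis `S` and boundary matrix `D`, after the
change of coefficients `f`. -/
def bd (f : A → B) (D : Matrix S S A) (v : S → B) (t : S) : B := ∑ s, v s * f (D s t)

/-- `v` is a cycle of degree `k`. -/
def IsCycle (f : A → B) (deg : S → ℕ) (D : Matrix S S A) (k : ℕ) (v : S → B) : Prop :=
  (∀ s, deg s ≠ k → v s = 0) ∧ ∀ t, bd f D v t = 0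

/-- `v` is a boundary of degree `k`. -/
def IsBdry (f : A → B) (deg : S → ℕ) (D : Matrix S S A) (k : ℕ) (v : S → B) : Prop :=
  ∃ w : S → B, (∀ s, deg s ≠ k + 1 → w s = 0) ∧ ∀ t, bd f D w t = v t

/-- The order of the torsion subgroup of the homology in degree `k`: the number of homology classes
of cycles `z` such that `m z` is a boundary for some `m > 0`. -/
def torsH (f : A → B) (deg : S → ℕ) (D : Matrix S S A) (k : ℕ) : ℕ :=
  Set.ncard {c : Set (S → B) | ∃ (z : S → B) (m : ℕ), IsCycle f deg D k z ∧ 0 < m ∧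
    IsBdry f deg D k (fun s => m * z s) ∧ c = {y | IsBdry f deg D k fun s => y s - z s}}

end

section

variable {S Γ : Type} [Fintype S] [Group Γ]

/-- The augmentation of the group ring. -/
def aug (a : MonoidAlgebra ℤ Γ) : ℤ := a.coeff.sum fun _ n => n

/-- The complex of based free modules over the group ring with basis elements `S`, degrees `deg` and
boundary matrix `D` is a resolution of `ℤ`; the augmentation is `v ↦ ∑ aug (v s) e s`. -/
structure IsRes (deg : S → ℕ) (D : Matrix S S (MonoidAlgebra ℤ Γ)) : Prop where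
  degree : ∀ s t, D s t ≠ 0 → deg s = deg t + 1
  square : ∀ s u, ∑ t, D s t * D t u = 0
  exact : ∃ e : S → ℤ, (∀ s, deg s ≠ 0 → e s = 0) ∧ (∀ s, ∑ t, aug (D s t) * e t = 0) ∧
    (∃ v : S → MonoidAlgebra ℤ Γ, ∑ s, aug (v s) * e s = 1) ∧
    ∀ v : S → MonoidAlgebra ℤ Γ, (∀ t, ∑ s, v s * D s t = 0) → ∑ s, aug (v s) * e s = 0 →
      ∃ w : S → MonoidAlgebra ℤ Γ, ∀ t, ∑ s, w s * D s t = v t

/-- The order of the torsion subgroup of the homology, with coefficients in `ℤ[Q]`. -/
def torsQ {Q : Type} [Group Q] (p : Γ → Q) (deg : S → ℕ) (D : Matrix S S (MonoidAlgebra ℤ Γ))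
    (k : ℕ) : ℕ :=
  torsH (fun a => (MonoidAlgebra.mapDomain p a : MonoidAlgebra ℤ Q)) deg D k

/-- The order of the torsion subgroup of the homology of the cover `E / N`, which is the homology
with coefficients in `ℤ[Γ / N]`. -/
def torsOrd (N : Subgroup Γ) [N.Normal] (deg : S → ℕ) (D : Matrix S S (MonoidAlgebra ℤ Γ))
    (k : ℕ) : ℕ := torsQ (QuotientGroup.mk : Γ → Γ ⧸ N) deg D k

variable (Γ) in
/-- `H_n(Γ; ℝ)` is not zero. -/
def TopHom (n : ℕ) : Prop :=
  ∃ (T : Type) (_ : Fintype T) (deg : T → ℕ) (D : Matrix T T (MonoidAlgebra ℤ Γ)) (v : T → ℝ),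
    IsRes deg D ∧ IsCycle (fun a => (aug a : ℝ)) deg D n v ∧
      ¬ IsBdry (fun a => (aug a : ℝ)) deg D n v

/-- The involution of the group ring. -/
def inv (a : MonoidAlgebra ℤ Γ) : MonoidAlgebra ℤ Γ := MonoidAlgebra.mapDomain (fun g : Γ => g⁻¹) a

/-- The adjoint matrix. -/
def adj (D : Matrix S S (MonoidAlgebra ℤ Γ)) : Matrix S S (MonoidAlgebra ℤ Γ) :=
  fun t s => inv (D s t)

/-- The Laplacian. -/
def lap (D : Matrix S S (MonoidAlgebra ℤ Γ)) : Matrix S S (MonoidAlgebra ℤ Γ) :=
  D * adj D + adj D * D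

/-- The von Neumann trace of the part of degree `k`. -/
def tr (deg : S → ℕ) (k : ℕ) (A : Matrix S S (MonoidAlgebra ℤ Γ)) : ℤ :=
  ∑ s, if deg s = k then (A s s).coeff 1 else 0

/-- `μ` is the spectral measure of the Laplacian in degree `k`: the measure of bounded support in
`[0, ∞)` whose moments are the traces of the powers of the Laplacian. -/
structure IsSpectral [DecidableEq S] (deg : S → ℕ) (D : Matrix S S (MonoidAlgebra ℤ Γ)) (k : ℕ)
    (μ : Measure ℝ) : Prop where
  finite : IsFiniteMeasure μ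
  bounded : ∃ R : ℝ, μ (Set.Icc 0 R)ᶜ = 0
  moment : ∀ n : ℕ, ∫ x, x ^ n ∂μ = tr deg k (lap D ^ n)

/-- The `L²`-torsion. -/
def rho (deg : S → ℕ) (μ : ℕ → Measure ℝ) : ℝ :=
  -(1 / 2) * ∑ j ∈ Finset.range (Finset.univ.sup deg + 1),
    (-1) ^ j * (j : ℝ) * ∫ x in Set.Ioi (0 : ℝ), Real.log x ∂(μ j)

/-- A residual chain `Γ = N 0 > N 1 > …` of normal subgroups of finite index. -/
structure IsResidual (N : ℕ → Subgroup Γ) : Prop where
  normal : ∀ i, (N i).Normal
  finite : ∀ i, (N i).FiniteIndex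
  first : ∀ g : Γ, g ∈ N 0
  anti : ∀ i, N (i + 1) < N i
  inter : ∀ g : Γ, (∀ i, g ∈ N i) → g = 1

end

end LTF
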